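import Pool.Agent.FFH.Base
import Pool.Agent.FFH.Analysis

/-!
# The H-conjecture fails in the function field model, where abc holds

Over a finite field `F` with `q` elements put `|f| = q ^ deg f`, let `ω f` be the number of monic irreducible factors
of `f`, and `H f = |rad f| / (log |rad f|) ^ ω f`. In `F[X]` the abc conjecture is a theorem (Mason, Stothers; it is in
Mathlib, see `abc_holds`). The H-conjecture fails, and in a strong form: no bound `|c| ≤ C * H (a b c) ^ A` holds.

The triples are `1 + (X ^ (q ^ n - 1) - 1) = X ^ (q ^ n - 1)`. Here `rad (a b c) = X ^ (q ^ n) - X`, and all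
its irreducible factors have degree at most `n`, so there are at least `q ^ n / n` of them; hence
`log (H (a b c)) ≤ - (q ^ n / n) * log (log q)`, while `log |c| = (q ^ n - 1) * log q`.
-/

set_option autoImplicit false

namespace Pool.Agent.Results.MP_d13557_nt.FunctionFieldModel

open Polynomial UniqueFactorizationMonoid Pool.Agent.FFH

/-- The absolute value `|f| = q ^ deg f` of a nonzero polynomial `f` over a field with `q` elements. -/
noncomputable def size {F : Type} [Field F] (f : F[X]) : ℝ := (Nat.card F : ℝ) ^ f.natDegree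

/-- `H f = |rad f| / (log |rad f|) ^ ω f`, where `ω f` is the number of monic irreducible factors of `f`. -/
noncomputable def H {F : Type} [Field F] [DecidableEq F] (f : F[X]) : ℝ :=
  size (radical f) / Real.log (size (radical f)) ^ (primeFactors f).card

/-- `a + b = c` with nonzero coprime polynomials whose derivatives are not all zero. -/
def Triple {F : Type} [Field F] (a b c : F[X]) : Prop :=
  a ≠ 0 ∧ b ≠ 0 ∧ c ≠ 0 ∧ IsCoprime a b ∧ a + b = c ∧
    ¬ (derivative a = 0 ∧ derivative b = 0 ∧ derivative c = 0)

/-- For comparison (known, Mason and Stothers): the abc conjecture holds for these triples. -/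
theorem abc_holds (F : Type) [Field F] [Finite F] [DecidableEq F] (a b c : F[X])
    (h : Triple a b c) : size c < size (radical (a * b * c)) := by
  obtain ⟨ha, hb, hc, hab, hsum, hder⟩ := h
  have hq : (2 : ℝ) ≤ (Nat.card F : ℝ) := by
    have h1 : 1 < Nat.card F := Finite.one_lt_card
    exact_mod_cast h1
  have hrad : radical (a * b * (-c)) = radical (a * b * c) := by
    rw [mul_neg]
    exact UniqueFactorizationDomain.radical_neg
  have h := Polynomial.abc ha hb (neg_ne_zero.2 hc) hab (by rw [← hsum]; ring)
  rw [hrad, natDegree_neg, derivative_neg, neg_eq_zero] at h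
  rcases h with h | h
  · unfold size
    exact pow_lt_pow_right₀ (by linarith) (by omega)
  · exact absurd h hder

/-- **Result.** In `F[X]`, for every finite field `F`, the H-conjecture fails in a strong form: no inequality
`|c| ≤ C * H (a b c) ^ A` holds for all triples `a + b = c`. -/
theorem result (F : Type) [Field F] [Finite F] [DecidableEq F] (A C : ℝ) (hA : 0 < A) :
    ∃ a b c : F[X], Triple a b c ∧ C * H (a * b * c) ^ A < size c := by
  have hq : 2 ≤ Nat.card F := Finite.one_lt_card
  obtain ⟨n, hn, hC⟩ := exists_n hq A (max C 0) hA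
  refine ⟨1, X ^ (Nat.card F ^ n - 1) - 1, X ^ (Nat.card F ^ n - 1),
    ⟨one_ne_zero, b_ne hn, pow_ne_zero _ X_ne_zero, isCoprime_one_left, by ring,
      fun h => deriv_ne hn h.2.2⟩, ?_⟩
  have hH : H (1 * (X ^ (Nat.card F ^ n - 1) - 1) * X ^ (Nat.card F ^ n - 1) : F[X]) =
      (Nat.card F : ℝ) ^ (Nat.card F ^ n) / Real.log ((Nat.card F : ℝ) ^ (Nat.card F ^ n)) ^
        (primeFactors (X ^ Nat.card F ^ n - X : F[X])).card := by
    unfold H size
    rw [primeFactors_abc hn, radical_abc hn, natDegree_radical_big hn]
  obtain ⟨h0, h1⟩ := log_H_le hq hn (card_primeFactors_big (F := F) hn)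
  rw [← hH] at h0 h1
  have hs : size (X ^ (Nat.card F ^ n - 1) : F[X]) = (Nat.card F : ℝ) ^ (Nat.card F ^ n - 1) := by
    unfold size
    rw [natDegree_X_pow]
  rw [hs]
  refine lt_of_le_of_lt ?_ hC
  rw [Real.rpow_def_of_pos h0]
  refine (mul_le_mul_of_nonneg_right (le_max_left C 0) (Real.exp_pos _).le).trans
    (mul_le_mul_of_nonneg_left ?_ (le_max_right C 0))
  rw [Real.exp_le_exp, mul_comm]
  exact mul_le_mul_of_nonneg_left h1 hA.le

end Pool.Agent.Results.MP_d13557_nt.FunctionFieldModel
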