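import Pool.Agent.HCav.Fixed

/-!
MP_d13557_nt: unconditional bounds for the number of admissible triples with small `H(abc)`, and for the
number of exceptions to the H-conjecture; the same for the triples with a given member.
-/

set_option autoImplicit false

namespace Pool.Agent.Results.MP_d13557_nt.RareTriples

/-- The radical of `n`. -/
def gamma (n : ℕ) : ℕ := ∏ p ∈ n.primeFactors, p

/-- `H(n) = γ(n) / (log γ(n)) ^ ω(n)`. -/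
noncomputable def H (n : ℕ) : ℝ := (gamma n : ℝ) / Real.log (gamma n) ^ n.primeFactors.card

/-- Admissible triples `(a, b, c)`. -/
def Admissible (t : ℕ × ℕ × ℕ) : Prop :=
  0 < t.1 ∧ 0 < t.2.1 ∧ t.1 + t.2.1 = t.2.2 ∧ Nat.gcd t.1 (Nat.gcd t.2.1 t.2.2) = 1

theorem result :
    (∀ δ : ℝ, 0 < δ → ∃ C : ℝ, ∀ (X : ℕ) (Z : ℝ), 1 ≤ X → 0 ≤ Z →
      (({t : ℕ × ℕ × ℕ | Admissible t ∧ t.2.2 ≤ X ∧ H (t.1 * t.2.1 * t.2.2) ≤ Z}.ncard : ℕ) : ℝ) ≤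
        C * Z ^ ((2 : ℝ) / 3) * (X : ℝ) ^ δ) ∧
    (∀ ε K : ℝ, 0 < ε → 0 < K → ∃ C : ℝ, ∀ X : ℕ, 1 ≤ X →
      (({t : ℕ × ℕ × ℕ | Admissible t ∧ t.2.2 ≤ X ∧
          K * H (t.1 * t.2.1 * t.2.2) ^ (1 + ε) ≤ (t.2.2 : ℝ)}.ncard : ℕ) : ℝ) ≤
        C * (X : ℝ) ^ ((2 : ℝ) / 3 - ε / (3 + 3 * ε))) ∧
    (∀ δ : ℝ, 0 < δ → ∃ C : ℝ, ∀ (X m : ℕ) (Z : ℝ), 1 ≤ X → 0 ≤ Z →
      (({t : ℕ × ℕ × ℕ | Admissible t ∧ t.2.2 ≤ X ∧ (t.1 = m ∨ t.2.1 = m ∨ t.2.2 = m) ∧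
          H (t.1 * t.2.1 * t.2.2) ≤ Z}.ncard : ℕ) : ℝ) ≤ C * Z ^ ((1 : ℝ) / 2) * (X : ℝ) ^ δ) ∧
    (∀ ε K : ℝ, 0 < ε → 0 < K → ∃ C : ℝ, ∀ X m : ℕ, 1 ≤ X →
      (({t : ℕ × ℕ × ℕ | Admissible t ∧ t.2.2 ≤ X ∧ (t.1 = m ∨ t.2.1 = m ∨ t.2.2 = m) ∧
          K * H (t.1 * t.2.1 * t.2.2) ^ (1 + ε) ≤ (t.2.2 : ℝ)}.ncard : ℕ) : ℝ) ≤
        C * (X : ℝ) ^ ((1 : ℝ) / 2 - ε / (4 + 4 * ε))) := by
  refine ⟨?_, ?_, ?_, ?_⟩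
  · intro δ hδ
    obtain ⟨C, -, hC⟩ := Pool.Agent.HCav.count hδ
    refine ⟨C, fun X Z hX hZ => ?_⟩
    have h1 : {t : ℕ × ℕ × ℕ | Admissible t ∧ t.2.2 ≤ X ∧ H (t.1 * t.2.1 * t.2.2) ≤ Z} =
        Pool.Agent.HCav.TT Z X := by
      ext t
      constructor
      · rintro ⟨⟨h1, h2, h3, h4⟩, h5, h6⟩
        exact ⟨h1, h2, h3, h4, h5, h6⟩
      · rintro ⟨h1, h2, h3, h4, h5, h6⟩
        exact ⟨⟨h1, h2, h3, h4⟩, h5, h6⟩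
    rw [h1]
    exact (hC Z X hZ hX).2
  · intro ε K hε hK
    obtain ⟨C, -, hC⟩ := Pool.Agent.HCav.except hε hK
    refine ⟨C, fun X hX => ?_⟩
    have h1 : {t : ℕ × ℕ × ℕ | Admissible t ∧ t.2.2 ≤ X ∧
          K * H (t.1 * t.2.1 * t.2.2) ^ (1 + ε) ≤ (t.2.2 : ℝ)} =
        Pool.Agent.HCav.EE ε K X := by
      ext t
      constructor
      · rintro ⟨⟨h1, h2, h3, h4⟩, h5, h6⟩
        exact ⟨h1, h2, h3, h4, h5, h6⟩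
      · rintro ⟨h1, h2, h3, h4, h5, h6⟩
        exact ⟨⟨h1, h2, h3, h4⟩, h5, h6⟩
    rw [h1]
    exact (hC X hX).2
  · intro δ hδ
    obtain ⟨C, -, hC⟩ := Pool.Agent.HCav.fixed hδ
    refine ⟨C, fun X m Z hX hZ => ?_⟩
    have h1 : {t : ℕ × ℕ × ℕ | Admissible t ∧ t.2.2 ≤ X ∧ (t.1 = m ∨ t.2.1 = m ∨ t.2.2 = m) ∧
          H (t.1 * t.2.1 * t.2.2) ≤ Z} = Pool.Agent.HCav.FF Z X m := by
      ext t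
      constructor
      · rintro ⟨⟨h1, h2, h3, h4⟩, h5, h7, h6⟩
        exact ⟨⟨h1, h2, h3, h4, h5, h6⟩, h7⟩
      · rintro ⟨⟨h1, h2, h3, h4, h5, h6⟩, h7⟩
        exact ⟨⟨h1, h2, h3, h4⟩, h5, h7, h6⟩
    rw [h1]
    exact (hC Z X m hZ hX).2
  · intro ε K hε hK
    obtain ⟨C, -, hC⟩ := Pool.Agent.HCav.except_fixed hε hK
    refine ⟨C, fun X m hX => ?_⟩
    have h1 : {t : ℕ × ℕ × ℕ | Admissible t ∧ t.2.2 ≤ X ∧ (t.1 = m ∨ t.2.1 = m ∨ t.2.2 = m) ∧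
          K * H (t.1 * t.2.1 * t.2.2) ^ (1 + ε) ≤ (t.2.2 : ℝ)} =
        {t : ℕ × ℕ × ℕ | t ∈ Pool.Agent.HCav.EE ε K X ∧ (t.1 = m ∨ t.2.1 = m ∨ t.2.2 = m)} := by
      ext t
      constructor
      · rintro ⟨⟨h1, h2, h3, h4⟩, h5, h7, h6⟩
        exact ⟨⟨h1, h2, h3, h4, h5, h6⟩, h7⟩
      · rintro ⟨⟨h1, h2, h3, h4, h5, h6⟩, h7⟩
        exact ⟨⟨h1, h2, h3, h4⟩, h5, h7, h6⟩
    rw [h1]
    exact hC X m hX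

end Pool.Agent.Results.MP_d13557_nt.RareTriples
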